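import Pool.Agent.Helper20.NP.Stmts
import Pool.Agent.Helper24.DN.GRF

set_option autoImplicit false

namespace Pool.Agent.Helper20.NP

open Pool.Agent.Helper21.DN

universe u w

/-- subgroups generated by a central element are normal -/
theorem pg_normal {G : Type u} [Group G] (ζ : G) (h : ζ ∈ Subgroup.center G) :
    (Subgroup.zpowers ζ).Normal := by
  refine ⟨fun n hn g => ?_⟩
  have h1 : n ∈ Subgroup.center G := (Subgroup.zpowers_le.2 h) hn
  rw [(Subgroup.mem_center_iff.1 h1 g), mul_inv_cancel_right]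
  exact hn

theorem pg_iter {K L : Type u} [Field K] [Field L] [Algebra K L] [FiniteDimensional K L]
    [IsGalois K L] (F : IntermediateField K L) [Normal K F] (σ : L ≃ₐ[K] L) (n : ℕ) (a : F) :
    (((⇑(AlgEquiv.restrictNormalHom F σ))^[n] a : F) : L) = (σ ^ n) (a : L) := by
  induction n with
  | zero => rfl
  | succ n ih =>
    rw [Function.iterate_succ_apply']
    have h1 : ((AlgEquiv.restrictNormalHom F σ) ((⇑(AlgEquiv.restrictNormalHom F σ))^[n] a) : L)
        = σ (((⇑(AlgEquiv.restrictNormalHom F σ))^[n] a : F) : L) :=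
      AlgEquiv.restrictNormal_commutes σ F _
    rw [h1, ih, pow_succ']
    rfl

theorem pg_sum {K L : Type u} [Field K] [Field L] [Algebra K L] [FiniteDimensional K L]
    [IsGalois K L] (F : IntermediateField K L) [Normal K F] (σ : L ≃ₐ[K] L) (z : L) (g : F)
    (hg : (g : L) = σ z - z) (n : ℕ) :
    ((∑ l ∈ Finset.range n, (⇑(AlgEquiv.restrictNormalHom F σ))^[l] g : F) : L)
      = (σ ^ n) z - z := by
  induction n with
  | zero => simp
  | succ n ih =>
    rw [Finset.sum_range_succ]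
    have h1 : ((∑ l ∈ Finset.range n, (⇑(AlgEquiv.restrictNormalHom F σ))^[l] g +
        (⇑(AlgEquiv.restrictNormalHom F σ))^[n] g : F) : L) =
        ((∑ l ∈ Finset.range n, (⇑(AlgEquiv.restrictNormalHom F σ))^[l] g : F) : L) +
        (((⇑(AlgEquiv.restrictNormalHom F σ))^[n] g : F) : L) := rfl
    rw [h1, ih, pg_iter, hg, map_sub, pow_succ]
    have h2 : (σ ^ n * σ) z = (σ ^ n) (σ z) := rfl
    rw [h2]
    ring

open scoped Classical in
/-- the sum outside the kernel -/
theorem pg_SO {G Q : Type u} [Group G] [Fintype G] [Group Q] [Fintype Q] (r : G →* Q)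
    (hrs : Function.Surjective r) (J : Subgroup G) (hker : r.ker = J) (f : G → ℕ) (fQ : Q → ℕ)
    (c : ℕ) (hP : ∀ g, g ∉ J → c * fQ (r g) = cs f J g) : SO f J = c * S1 fQ := by
  have hne : ∀ g, r g ≠ 1 ↔ g ∉ J := by
    intro g
    rw [← hker, MonoidHom.mem_ker]
  unfold S1 SO
  rw [Finset.mul_sum, ← Finset.sum_fiberwise_of_maps_to (g := r)
    (t := Finset.univ.filter (fun σ : Q => σ ≠ 1))]
  · apply Finset.sum_congr rfl
    intro τ hτ
    rw [Finset.mem_filter] at hτ
    obtain ⟨g, rfl⟩ := hrs τ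
    rw [hP g ((hne g).1 hτ.2), ← grf_fib r J hker]
    apply Finset.sum_congr _ (fun _ _ => rfl)
    ext x
    simp only [Finset.mem_filter, Finset.mem_univ, true_and]
    constructor
    · rintro ⟨-, h⟩
      exact h
    · intro h
      exact ⟨(hne x).1 (h ▸ hτ.2), h⟩
  · intro g hg
    rw [Finset.mem_filter] at hg ⊢
    exact ⟨Finset.mem_univ _, (hne g).2 hg.2⟩

open scoped Classical in
theorem pg_x0 {G Q : Type u} [Group G] [Fintype G] [Group Q] [Fintype Q] (r : G →* Q)
    (hrs : Function.Surjective r) (J : Subgroup G) (hker : r.ker = J) (f : G → ℕ) (fQ : Q → ℕ)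
    (c : ℕ) (hc : 0 < c) (hP : ∀ g, g ∉ J → c * fQ (r g) = cs f J g) (y : G) (hy : y ∉ J)
    (hmax : ∀ g, g ∉ J → cs f J g ≤ cs f J y) : fQ (r y) = x0 fQ := by
  have hne : ∀ g, r g ≠ 1 ↔ g ∉ J := by
    intro g
    rw [← hker, MonoidHom.mem_ker]
  unfold x0
  apply le_antisymm
  · exact Finset.le_sup (f := fQ) (Finset.mem_filter.2 ⟨Finset.mem_univ _, (hne y).2 hy⟩)
  · apply Finset.sup_le
    intro τ hτ
    rw [Finset.mem_filter] at hτ
    obtain ⟨g, rfl⟩ := hrs τ
    have hg := (hne g).1 hτ.2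
    have h1 := hmax g hg
    rw [← hP g hg, ← hP y hy] at h1
    exact Nat.le_of_mul_le_mul_left h1 hc

theorem pg_equiv {G Q : Type u} {A : Type w} [Group G] [Group Q] [Group A] (r : G →* Q)
    (hrs : Function.Surjective r) (φ : G →* A) (hφ : Function.Surjective φ)
    (h : r.ker = φ.ker) : ∃ e : Q ≃* A, ∀ g, e (r g) = φ g := by
  have key : ∀ g, (MonoidHom.liftOfSurjective r hrs ⟨φ, h.le⟩) (r g) = φ g := fun g =>
    MonoidHom.liftOfRightInverse_comp_apply _ _ _ ⟨φ, h.le⟩ g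
  refine ⟨MulEquiv.ofBijective (MonoidHom.liftOfSurjective r hrs ⟨φ, h.le⟩) ⟨?_, ?_⟩, key⟩
  · rw [injective_iff_map_eq_one]
    intro q hq
    obtain ⟨g, rfl⟩ := hrs q
    rw [key, ← MonoidHom.mem_ker, ← h, MonoidHom.mem_ker] at hq
    exact hq
  · intro a
    obtain ⟨g, rfl⟩ := hφ a
    exact ⟨r g, key g⟩

theorem pg_stab {K L : Type u} [Field K] [Field L] [Algebra K L] (ζ : L ≃ₐ[K] L) (w : L)
    (h : ζ w = w) (f : L ≃ₐ[K] L) (hf : f ∈ Subgroup.zpowers ζ) : f w = w := by
  have h1 : Subgroup.zpowers ζ ≤ MulAction.stabilizer (L ≃ₐ[K] L) w := by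
    rw [Subgroup.zpowers_le, MulAction.mem_stabilizer_iff]
    exact h
  have h2 := h1 hf
  rw [MulAction.mem_stabilizer_iff] at h2
  exact h2

open scoped Classical in
theorem st_PG (hAS1 : ST_AS1.{u}) (hDIFR : ST_DIFR.{u}) (hGB : ST_GB.{u}) (hPOW : ST_POW.{u})
    (hBCH : ST_BCH.{u}) (hP3 : ST_P3.{u}) : ST_PG.{u} := by
  intro p _ hp2 k K L _ _ _ _ _ _ _ _ κ v hR hpG D e hD ζ hζc hζo hpow hcom y hy hmax
  set J := Subgroup.zpowers ζ with hJ
  have hJn : J.Normal := pg_normal ζ hζc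
  have hp1 : 1 < p := (Fact.out : p.Prime).one_lt
  have hp0 : 0 < p := by omega
  have hcL : CharP L p := charP_of_injective_ringHom (((algebraMap K L).comp κ).injective) p
  have hcardJ : Nat.card J = p := by rw [hJ, Nat.card_zpowers, hζo]
  set F := IntermediateField.fixedField J with hF
  have hfin : Module.finrank F L = p := by
    rw [hF, IntermediateField.finrank_fixedField_eq_card, hcardJ]
  obtain ⟨vF, t1, t2⟩ := hR.sub F
  have hRF : Ram κ vF := grf_quot κ v hR F vF t1 t2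
  set r : (L ≃ₐ[K] L) →* (F ≃ₐ[K] F) := AlgEquiv.restrictNormalHom F with hr
  have hrs : Function.Surjective r := AlgEquiv.restrictNormalHom_surjective L
  have hker : r.ker = J := by
    rw [hr, IntermediateField.restrictNormalHom_ker, hF,
      IntermediateField.fixingSubgroup_fixedField]
  -- y is not in J
  have hyJ : y ∉ J := by
    intro hyJ
    obtain ⟨n, hn⟩ := hyJ
    apply hy
    have hn' : ζ ^ n = y := hn
    rw [← hn', ← zpow_natCast, ← zpow_mul, mul_comm, zpow_mul, zpow_natCast, ← hζo,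
      pow_orderOf_eq_one, one_zpow]
  -- the Artin-Schreier generator of L over F
  set ζ' : L ≃ₐ[F] L := IntermediateField.subgroupEquivAlgEquiv J
    ⟨ζ, Subgroup.mem_zpowers ζ⟩ with hζ'
  have hζ'c : (⇑ζ' : L → L) = ⇑ζ := rfl
  have hζ'1 : ζ' ≠ 1 := by
    intro h
    have h1 : ζ = 1 := by
      apply AlgEquiv.ext
      intro x
      have : ζ' x = x := by rw [h]; rfl
      exact this
    rw [h1, orderOf_one] at hζo
    omega
  obtain ⟨z, α, m, hm1, hpm, hz, hzα, hvz, hsm⟩ := hAS1 p k F L ((algebraMap K F).comp κ) v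
    (hBCH k K L κ v hR F) hfin ζ' hζ'1
  have hz' : ζ z = z + 1 := hz
  have hsm' : s v ζ = m := by
    rw [← hsm, hζ'c]
  -- restriction of the derivation
  obtain ⟨D', -, hD'⟩ := hDIFR p K L v D e hD F vF t2
  -- the basis
  obtain ⟨d, φ, x, hφs, hφk, hx0, hφx, hxp⟩ := hGB p hp2 (L ≃ₐ[K] L) ζ hζc hζo hpow hcom y hy
  have hkk : r.ker = φ.ker := by rw [hker, hφk]
  obtain ⟨φ', hφ'⟩ := pg_equiv r hrs φ hφs hkk
  -- g
  have hmem : ∀ σ : L ≃ₐ[K] L, σ z - z ∈ F := by
    intro σ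
    rw [hF, IntermediateField.mem_fixedField_iff]
    intro f hf
    apply pg_stab ζ _ _ f hf
    have h1 : ζ (σ z) = σ (ζ z) := by
      have := Subgroup.mem_center_iff.1 hζc σ
      have h2 : (σ * ζ) z = (ζ * σ) z := by rw [this]
      exact h2.symm
    rw [map_sub, h1, hz', map_add, map_one]
    ring
  set g : Fin (d + 1) → F := fun i => ⟨x i z - z, hmem (x i)⟩ with hg
  have hαL : (α : L) = z ^ p - z := hzα.symm
  have hrel : ∀ i, r (x i) α - α = g i ^ p - g i := by
    intro i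
    apply Subtype.ext
    have h1 : ((r (x i) α - α : F) : L) = x i (α : L) - (α : L) := by
      have h2 : ((r (x i) α : F) : L) = x i (α : L) := AlgEquiv.restrictNormal_commutes (x i) F α
      rw [← h2]
      rfl
    have h3 : ((g i ^ p - g i : F) : L) = (x i z - z) ^ p - (x i z - z) := rfl
    rw [h1, h3, hαL, sub_pow_char, map_sub, map_pow]
    ring
  have hvα : vF α = ((-(m : ℤ) : ℤ) : WithTop ℤ) := by
    apply grf_cancel (Module.finrank F L) (by omega)
    rw [← t2, hαL, hfin]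
    have h1 : v (z ^ p) = ((-(p * m : ℕ) : ℤ) : WithTop ℤ) := by
      rw [AddValuation.map_pow, hvz, ← WithTop.coe_nsmul]
      congr 1
      rw [nsmul_eq_mul]
      push_cast
      ring
    have h2 : v (z ^ p) < v z := by
      rw [h1, hvz, WithTop.coe_lt_coe]
      have : m < p * m := by nlinarith
      push_cast
      have h3 : (m : ℤ) < (p : ℤ) * m := by exact_mod_cast this
      linarith
    rw [AddValuation.map_sub_eq_of_lt_left v h2, h1, ← WithTop.coe_nsmul]
    congr 1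
    rw [nsmul_eq_mul]
    push_cast
    ring
  have hsum : ∀ i, ((∑ l ∈ Finset.range p, (⇑(r (x i)))^[l] (g i) : F) : L) =
      (x i ^ p) z - z := fun i => pg_sum F (x i) z (g i) rfl p
  have htr : ∀ i, i ≠ 0 → ∑ l ∈ Finset.range p, (⇑(r (x i)))^[l] (g i) = 0 := by
    intro i hi
    apply Subtype.ext
    rw [hsum i, hxp i hi]
    show z - z = 0
    rw [sub_self]
  have hne0 : ∑ l ∈ Finset.range p, (⇑(r (x 0)))^[l] (g 0) ≠ 0 := by
    intro h
    have h1 := hsum 0
    rw [h, hx0] at h1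
    have h2 : (y ^ p) z = z := by
      have h3 : (0 : L) = (y ^ p) z - z := h1
      exact (sub_eq_zero.1 h3.symm)
    have h4 : ζ ∈ Subgroup.zpowers (y ^ p) := by
      have h5 : (⟨ζ, Subgroup.mem_zpowers ζ⟩ : J) ∈
          Subgroup.zpowers (⟨y ^ p, hpow y⟩ : J) := by
        apply mem_zpowers_of_prime_card hcardJ
        intro h6
        exact hy (congrArg Subtype.val h6)
      obtain ⟨n, hn⟩ := h5
      exact ⟨n, congrArg Subtype.val hn⟩
    have h5 := pg_stab (y ^ p) z h2 ζ h4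
    rw [hz'] at h5
    have h6 : (1 : L) = 0 := by
      have : z + 1 = z + 0 := by rw [h5, add_zero]
      exact add_left_cancel this
    exact one_ne_zero h6
  have hPP : ∀ g, g ∉ J → p * s vF (r g) = cs (fun σ : L ≃ₐ[K] L => s v σ) J g := by
    intro g hg
    have := grf_P3 hP3 p κ v hR hpG J vF t1 t2 g hg
    rw [hcardJ] at this
    exact this
  have hx0F : s vF (r y) = x0 (fun σ : F ≃ₐ[K] F => s vF σ) :=
    pg_x0 r hrs J hker (fun σ : L ≃ₐ[K] L => s v σ) (fun σ : F ≃ₐ[K] F => s vF σ) p hp0 hPP y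
      hyJ hmax
  have hSO : SO (fun σ : L ≃ₐ[K] L => s v σ) J = p * S1 (fun σ : F ≃ₐ[K] F => s vF σ) :=
    pg_SO r hrs J hker (fun σ : L ≃ₐ[K] L => s v σ) (fun σ : F ≃ₐ[K] F => s vF σ) p hPP
  have hmain := hPOW p hp2 k K F κ vF hRF D' e hD' d φ' (fun i => r (x i))
    (fun i => by rw [hφ', hφx]) (by rw [← hx0F, hx0]) α g m hpm hvα hrel htr hne0
  rw [hSO, ← hPP y hyJ, hx0F, hsm']
  calc p * (p * x0 (fun σ : F ≃ₐ[K] F => s vF σ) + p * S1 (fun σ : F ≃ₐ[K] F => s vF σ))
      = p * (p * (S1 (fun σ : F ≃ₐ[K] F => s vF σ) + x0 (fun σ : F ≃ₐ[K] F => s vF σ))) := by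
        ring
    _ ≤ p * (m + S1 (fun σ : F ≃ₐ[K] F => s vF σ)) := Nat.mul_le_mul_left _ hmain
    _ = p * m + p * S1 (fun σ : F ≃ₐ[K] F => s vF σ) := by ring

end Pool.Agent.Helper20.NP
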