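import Pool.Agent.Helper22.NP.Basic

namespace Pool.Agent.Helper22.NP

open scoped Classical

theorem twl_tz_zero (k Ω : Type) [Field k] [Field Ω] [Algebra (LaurentSeries k) Ω] (n : ℤ) :
    tz k Ω n 0 = 0 := by
  unfold tz
  rw [HahnSeries.single_eq_zero, map_zero]

theorem twl_tz_inj (k Ω : Type) [Field k] [Field Ω] [Algebra (LaurentSeries k) Ω] (n : ℤ) (c : k)
    (h : tz k Ω n c = 0) : c = 0 := by
  unfold tz at h
  have h1 : HahnSeries.single n c = (0 : LaurentSeries k) := by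
    apply (algebraMap (LaurentSeries k) Ω).injective
    rw [h, map_zero]
  exact (HahnSeries.single_eq_zero_iff).1 h1

theorem twl_tz_mul (k Ω : Type) [Field k] [Field Ω] [Algebra (LaurentSeries k) Ω] (n m : ℤ)
    (c d : k) : tz k Ω n c * tz k Ω m d = tz k Ω (n + m) (c * d) := by
  unfold tz
  rw [← map_mul, HahnSeries.single_mul_single]

theorem twl_tz_pow (k Ω : Type) [Field k] [Field Ω] [Algebra (LaurentSeries k) Ω] (n : ℤ) (c : k)
    (a : ℕ) : tz k Ω n c ^ a = tz k Ω (a * n) (c ^ a) := by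
  unfold tz
  rw [← map_pow, HahnSeries.single_pow, nsmul_eq_mul]

theorem twl_tz_one (k Ω : Type) [Field k] [Field Ω] [Algebra (LaurentSeries k) Ω] :
    tz k Ω 0 1 = 1 := by
  unfold tz
  rw [HahnSeries.single_zero_one, map_one]

theorem twl_val (k L : Type) [Field k] [Field L] [Algebra (LaurentSeries k) L]
    [FiniteDimensional (LaurentSeries k) L] [IsGalois (LaurentSeries k) L]
    (v : AddValuation L (WithTop ℤ)) (hv : ∀ x, v x = ordL k L x) (n : ℤ) (c : k) (hc : c ≠ 0) :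
    v (tz k L n c) = ((n * (Nat.card (L ≃ₐ[LaurentSeries k] L) : ℤ) : ℤ) : WithTop ℤ) := by
  have h0 : tz k L n c ≠ 0 := fun h => hc (twl_tz_inj k L n c h)
  rw [hv, ordL, if_neg h0]
  unfold tz
  rw [Algebra.norm_algebraMap, HahnSeries.order_pow, HahnSeries.order_single hc,
    IsGalois.card_aut_eq_finrank, nsmul_eq_mul, mul_comm]

theorem twl_val_le (k L : Type) [Field k] [Field L] [Algebra (LaurentSeries k) L]
    [FiniteDimensional (LaurentSeries k) L] [IsGalois (LaurentSeries k) L]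
    (v : AddValuation L (WithTop ℤ)) (hv : ∀ x, v x = ordL k L x) (n : ℤ) (c : k) :
    ((n * (Nat.card (L ≃ₐ[LaurentSeries k] L) : ℤ) : ℤ) : WithTop ℤ) ≤ v (tz k L n c) := by
  by_cases hc : c = 0
  · subst hc
    rw [twl_tz_zero, AddValuation.map_zero]
    exact le_top
  · rw [twl_val k L v hv n c hc]

/-- elements of the prime field are fixed -/
theorem twl_fp (p : ℕ) [Fact p.Prime] (K Ω : Type) [Field K] [Field Ω] [CharP Ω p] [Algebra K Ω]
    (σ : Ω ≃ₐ[K] Ω) (y : Ω) (hy : y ^ p - y = 0) : σ y = y := by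
  have h1 : y ∈ (⊥ : Subfield Ω) := (Subfield.mem_bot_iff_pow_eq_self Ω p).2 (sub_eq_zero.1 hy)
  have h2 : (⊥ : Subfield Ω) ≤ (σ : Ω →+* Ω).eqLocusField (RingHom.id Ω) := bot_le
  exact h2 h1

theorem twl_zc_one (p : ℕ) [Fact p.Prime] (A : Type) [Field A] : zc p A 1 = 0 := by
  unfold zc
  rw [toAdd_one, ZMod.val_zero, Nat.cast_zero]

theorem twl_zc_ne (p : ℕ) [Fact p.Prime] (A : Type) [Field A] [CharP A p]
    (x : Multiplicative (ZMod p)) (hx : x ≠ 1) : zc p A x ≠ 0 := by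
  unfold zc
  intro h
  rw [CharP.cast_eq_zero_iff A p] at h
  have h1 := Nat.eq_zero_of_dvd_of_lt h (ZMod.val_lt _)
  apply hx
  have h2 : Multiplicative.toAdd x = 0 := (ZMod.val_eq_zero _).1 h1
  exact h2

/-- Frobenius on sums with coefficients in the prime field -/
theorem twl_frob (p : ℕ) [Fact p.Prime] (A : Type) [Field A] [CharP A p] {ι : Type}
    (s : Finset ι) (c : ι → ℕ) (f : ι → A) :
    (∑ i ∈ s, (c i : A) * f i) ^ p - ∑ i ∈ s, (c i : A) * f i
      = ∑ i ∈ s, (c i : A) * (f i ^ p - f i) := by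
  rw [sum_pow_char p, ← Finset.sum_sub_distrib]
  refine Finset.sum_congr rfl fun i _ => ?_
  have h1 : ((c i : ℕ) : A) ^ p = ((c i : ℕ) : A) := by
    have := map_natCast (frobenius A p) (c i)
    rwa [frobenius_def] at this
  rw [mul_pow, h1, mul_sub]

theorem twl_act {K Ω : Type} [Field K] [Field Ω] [Algebra K Ω] (M : IntermediateField K Ω)
    [Normal K M] (σ : Ω ≃ₐ[K] Ω) (x : M) :
    ((AlgEquiv.restrictNormalHom M σ • x : M) : Ω) = σ (x : Ω) :=
  AlgEquiv.restrictNormal_commutes σ M x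

theorem twl_bar {K Ω P : Type} [Field K] [Field Ω] [Algebra K Ω] [Group P] [IsGalois K Ω]
    (M : IntermediateField K Ω) [Normal K M] (ρ : (Ω ≃ₐ[K] Ω) →* P)
    (h : M.fixingSubgroup ≤ ρ.ker) : ∃ ρb : (M ≃ₐ[K] M) →* P,
      ∀ σ, ρb (AlgEquiv.restrictNormalHom M σ) = ρ σ := by
  have hs : Function.Surjective (AlgEquiv.restrictNormalHom (F := K) (K₁ := Ω) M) :=
    AlgEquiv.restrictNormalHom_surjective Ω
  have hk : (AlgEquiv.restrictNormalHom (F := K) (K₁ := Ω) M).ker ≤ ρ.ker := by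
    rw [IntermediateField.restrictNormalHom_ker]
    exact h
  refine ⟨MonoidHom.liftOfSurjective _ hs ⟨ρ, hk⟩, fun σ => ?_⟩
  exact MonoidHom.liftOfRightInverse_comp_apply _ _ _ ⟨ρ, hk⟩ σ

theorem twl_coe_tz {k Ω : Type} [Field k] [Field Ω] [Algebra (LaurentSeries k) Ω]
    (M : IntermediateField (LaurentSeries k) Ω) (n : ℤ) (c : k) :
    ((tz k M n c : M) : Ω) = tz k Ω n c := rfl

theorem twl_fix_tz {k L : Type} [Field k] [Field L] [Algebra (LaurentSeries k) L]
    (g : L ≃ₐ[LaurentSeries k] L) (n : ℤ) (c : k) : g • tz k L n c = tz k L n c :=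
  g.commutes _

theorem twl_mono (hPMO : ST_PMO) {G : Type} [Group G] [Fintype G] (i : G → ℕ) {x y : ℕ}
    (h : x ≤ y) : Phi i x ≤ Phi i y := by
  rcases h.lt_or_eq with h | h
  · exact (((hPMO G i x y).1) h).le
  · rw [h]

theorem st_TWL (hLVL : ST_LVL) (hGSK : ST_GSK) (hASB : ST_ASB) (hHZB : ST_HZB) (hTL1 : ST_TL1)
    (hPMO : ST_PMO) : ST_TWL := by
  intro p _ hp2 k P I J R Ω _ _ _ _ _ _ _ _ _ _ _ hPC hP D m l ρ X z c hpm hqm hB ρ' Y Y' e e'
    hT u hu hul hl
  have : CharP Ω p := charP_of_ring (p := p) (k := k) (iotaL k Ω)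
  have := hPC.gal
  have hYY : ∀ (i : I) (r : R), ∃ y : Ω, y ^ p - y =
      tz k Ω (-((m * (p * l + 1) : ℕ) : ℤ)) (D.b i) * z r := fun i r => hPC.as _
  choose YY hYY using hYY
  obtain ⟨M₁, hM1f, hM1g, hM1k⟩ := hB.fl
  obtain ⟨M₂, hM2f, hM2g, hM2k⟩ := hT.fl
  obtain ⟨M, hMf, hMg, hM1, hM2, hMS, hMp⟩ := hLVL p (LaurentSeries k) Ω hPC M₁ M₂ hM1f hM1g
    hM2f hM2g ({X} ∪ Finset.univ.image z ∪ Finset.univ.image Y ∪ Finset.univ.image Y' ∪
      Finset.univ.image fun q : I × R => YY q.1 q.2)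
  have := hMf
  have := hMg
  obtain ⟨v, hv, hGS⟩ := hGSK p k M hMp
  refine ⟨M, hMf, hMg, v, (IntermediateField.fixingSubgroup_le hM2).trans hM2k, hv, ?_⟩
  have hXM : X ∈ M := hMS X (by simp)
  have hzM : ∀ r, z r ∈ M := fun r => hMS _ (by simp)
  have hYM : ∀ i, Y i ∈ M := fun i => hMS _ (by simp)
  have hY'M : ∀ j, Y' j ∈ M := fun j => hMS _ (by simp)
  have hYYM : ∀ i r, YY i r ∈ M := fun i r => hMS _ (by simp)
  have hρk : M.fixingSubgroup ≤ ρ.ker := (IntermediateField.fixingSubgroup_le hM1).trans hM1k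
  obtain ⟨ρb, hρb⟩ := twl_bar M ρ hρk
  have hcond := hu M hρk v hv
  have hsurj : Function.Surjective (AlgEquiv.restrictNormalHom (F := LaurentSeries k) (K₁ := Ω) M) :=
    AlgEquiv.restrictNormalHom_surjective Ω
  have hdef : ∀ σ : Ω ≃ₐ[LaurentSeries k] Ω, ∀ x : M,
      ((AlgEquiv.restrictNormalHom M σ • x : M) : Ω) = σ (x : Ω) := twl_act M
  -- numerics
  have hp0 : 0 < p := (Fact.out : p.Prime).pos
  have hq : (1 : ℚ) < (m : ℚ) / (p : ℚ) ^ D.s := by
    rw [one_lt_div (by positivity)]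
    exact_mod_cast hqm
  have hm1 : 1 < m := lt_of_le_of_lt (Nat.one_le_pow _ _ hp0) hqm
  have hNl : (l : ℚ) ≤ (m : ℚ) * (p * l + 1) := by
    have h1 : l ≤ m * (p * l + 1) := by nlinarith [Nat.mul_le_mul hp0 (le_refl l)]
    exact_mod_cast h1
  set i : (M ≃ₐ[LaurentSeries k] M) → ℕ := ram (G := M ≃ₐ[LaurentSeries k] M) v with hi
  -- the four bounds
  have hA1 : ∀ (a : I) (g : M ≃ₐ[LaurentSeries k] M),
      g • (⟨Y a, hYM a⟩ : M) ≠ ⟨Y a, hYM a⟩ → Phi i (i g) ≤ (m : ℚ) * (p * l + 1) + 1 := by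
    intro a g hg
    have e1 : (⟨Y a, hYM a⟩ : M) ^ p - ⟨Y a, hYM a⟩ =
        tz k M (-((m * (p * l + 1) : ℕ) : ℤ)) (D.b a) := Subtype.ext (hT.hY a)
    have h := hASB p (M ≃ₐ[LaurentSeries k] M) k M (iotaL k M) v hGS hMp ⟨Y a, hYM a⟩
      (m * (p * l + 1)) (fun g => by rw [e1]; exact twl_fix_tz g _ _) (by
        rw [e1]
        refine le_trans (le_of_eq ?_) (twl_val_le k M v hv _ _)
        exact congrArg (fun n : ℤ => (n : WithTop ℤ)) (by push_cast; ring))
    have h2 := twl_mono hPMO i (le_lev i {g : M ≃ₐ[LaurentSeries k] M |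
      g • (⟨Y a, hYM a⟩ : M) ≠ ⟨Y a, hYM a⟩} hg)
    refine (h2.trans h).trans (le_of_eq ?_)
    push_cast; ring
  have hA2 : ∀ (a : I) (r : R) (g : M ≃ₐ[LaurentSeries k] M),
      g • (⟨z r, hzM r⟩ : M) = ⟨z r, hzM r⟩ → g • (⟨YY a r, hYYM a r⟩ : M) ≠ ⟨YY a r, hYYM a r⟩ →
      Phi i (i g) ≤ (m : ℚ) * (p * l + 1) + 2 := by
    intro a r g hgz hg
    have hχ : (D.η r).comp ρb ≠ 1 := by
      intro h
      obtain ⟨g0, -, hg0⟩ := D.sur 0 (zero_pow (by positivity)) (fun _ => Multiplicative.ofAdd 1)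
      obtain ⟨σ, rfl⟩ := hB.sur g0
      have h1 := DFunLike.congr_fun h (AlgEquiv.restrictNormalHom M σ)
      rw [MonoidHom.comp_apply, hρb, hg0 r] at h1
      have h2 : (1 : ZMod p) = 0 := h1
      exact one_ne_zero h2
    have hpn : ¬ p ∣ 1 := fun h => (Fact.out : p.Prime).one_lt.ne' (Nat.dvd_one.1 h)
    have e1 : (⟨z r, hzM r⟩ : M) ^ p - ⟨z r, hzM r⟩ = tz k M (-1) (c r) := Subtype.ext (hB.hz r)
    have h := hHZB p (M ≃ₐ[LaurentSeries k] M) k M (iotaL k M) v hGS hMp ⟨z r, hzM r⟩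
      (tz k M (-((m * (p * l + 1) : ℕ) : ℤ)) (D.b a)) ⟨YY a r, hYYM a r⟩ 1 (m * (p * l + 1))
      ((D.η r).comp ρb) hχ hpn (by
        intro g
        obtain ⟨σ, rfl⟩ := hsurj g
        apply Subtype.ext
        rw [hdef, MonoidHom.comp_apply, hρb]
        show σ (z r) = z r + _
        rw [hB.az σ r]
        rfl) (by
        rw [e1]
        refine (twl_val k M v hv _ _ (hB.cne r)).trans ?_
        exact congrArg (fun n : ℤ => (n : WithTop ℤ)) (by push_cast; ring)) (fun g => twl_fix_tz g _ _) (by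
        refine le_trans (le_of_eq ?_) (twl_val_le k M v hv _ _)
        exact congrArg (fun n : ℤ => (n : WithTop ℤ)) (by push_cast; ring)) (Subtype.ext (hYY a r))
    have h2 := twl_mono hPMO i (le_lev i {g : M ≃ₐ[LaurentSeries k] M |
      g • (⟨z r, hzM r⟩ : M) = ⟨z r, hzM r⟩ ∧
        g • (⟨YY a r, hYYM a r⟩ : M) ≠ ⟨YY a r, hYYM a r⟩} ⟨hgz, hg⟩)
    refine (h2.trans h).trans (le_of_eq ?_)
    push_cast; ring
  have hA3 : ∀ j ∈ D.J0, D.w j ≠ 0 →
      (∃ g : M ≃ₐ[LaurentSeries k] M, g • (⟨X, hXM⟩ : M) = ⟨X, hXM⟩ ∧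
        g • (⟨Y' j, hY'M j⟩ : M) ≠ ⟨Y' j, hY'M j⟩) ∧
      Phi i (lev i {g | g • (⟨X, hXM⟩ : M) = ⟨X, hXM⟩ ∧
        g • (⟨Y' j, hY'M j⟩ : M) ≠ ⟨Y' j, hY'M j⟩}) =
        (m : ℚ) * (p * l + 1) + (m : ℚ) / (p : ℚ) ^ D.s + 1 := by
    intro j hj hwj
    have e1 : (⟨X, hXM⟩ : M) ^ (p ^ D.s) - ⟨X, hXM⟩ = tz k M (-(m : ℤ)) 1 := Subtype.ext hB.hX
    refine hTL1 p hp2 (M ≃ₐ[LaurentSeries k] M) k M (iotaL k M) v hGS hMp D.s m l ⟨X, hXM⟩
      ⟨Y' j, hY'M j⟩ (D.w j) (D.ξ.comp ρb) D.hs hpm hm1 hl hwj ?_ ?_ ?_ ?_ ?_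
    · intro g
      obtain ⟨σ, rfl⟩ := hsurj g
      apply Subtype.ext
      rw [hdef, MonoidHom.comp_apply, hρb]
      show σ X = X + _
      rw [hB.aX σ]
      rfl
    · intro a ha
      obtain ⟨g0, hg0, -⟩ := D.sur a ha 1
      obtain ⟨σ, rfl⟩ := hB.sur g0
      refine ⟨AlgEquiv.restrictNormalHom M σ, ?_⟩
      rw [MonoidHom.comp_apply, hρb, hg0]
    · intro g
      rw [MonoidHom.comp_apply]
      exact D.ξran _
    · rw [e1]
      refine (twl_val k M v hv _ _ one_ne_zero).trans ?_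
      exact congrArg (fun n : ℤ => (n : WithTop ℤ)) (by push_cast; ring)
    · rw [e1, twl_tz_pow, twl_tz_pow, one_pow, one_pow]
      have h2 : (2 : M)⁻¹ = tz k M 0 (2⁻¹ : k) := by
        have h3 : (2 : M) * tz k M 0 (2⁻¹ : k) = 1 := by
          have h4 : (2 : M) = tz k M 0 (2 : k) := by
            have h5 : tz k M 0 ((1 : k) + 1) = tz k M 0 1 + tz k M 0 1 := by
              unfold tz
              rw [HahnSeries.single_add, map_add]
            rw [twl_tz_one] at h5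
            rw [← one_add_one_eq_two, ← one_add_one_eq_two, h5]
          have h6 : (2 : k) ≠ 0 := by
            intro h
            have h7 : ((2 : ℕ) : k) = 0 := by exact_mod_cast h
            rw [CharP.cast_eq_zero_iff k p] at h7
            exact hp2 ((Nat.prime_dvd_prime_iff_eq (Fact.out : p.Prime) Nat.prime_two).1 h7)
          rw [h4, twl_tz_mul, mul_inv_cancel₀ h6, zero_add, twl_tz_one]
        exact inv_eq_of_mul_eq_one_right h3
      have h8 : iotaL k M (D.w j) = tz k M 0 (D.w j) := rfl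
      rw [h2, h8, mul_add, twl_tz_mul, ← mul_assoc, twl_tz_mul, twl_tz_mul]
      apply Subtype.ext
      have h9 := hT.hY0 j hj
      have e2 : ((⟨Y' j, hY'M j⟩ ^ p - ⟨Y' j, hY'M j⟩ : M) : Ω) = Y' j ^ p - Y' j := rfl
      rw [e2, h9]
      have e3 : ∀ (n n' : ℤ) (a a' : k), n = n' → a = a' → tz k Ω n a = tz k Ω n' a' := by
        intro n n' a a' h h'
        rw [h, h']
      show _ = tz k Ω _ _ * X + tz k Ω _ _
      congr 1
      · congr 1
        apply e3
        · push_cast; ring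
        · ring
      · apply e3
        · push_cast; ring
        · ring
  have hA4 : ∀ σ : Ω ≃ₐ[LaurentSeries k] Ω, ρ σ ≠ 1 →
      Phi i (i (AlgEquiv.restrictNormalHom M σ)) ≤ u + 1 := by
    intro σ hσ
    rw [hcond]
    exact twl_mono hPMO i (le_lev i (mv ρ M) ⟨σ, rfl, hσ⟩)
  -- movements
  have hmY : ∀ (σ : Ω ≃ₐ[LaurentSeries k] Ω) (a : I), (Multiplicative.toAdd (e σ)) a ≠ 0 →
      AlgEquiv.restrictNormalHom M σ • (⟨Y a, hYM a⟩ : M) ≠ ⟨Y a, hYM a⟩ := by
    intro σ a ha h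
    have h1 := congrArg (fun x : M => (x : Ω)) h
    simp only at h1
    rw [hdef] at h1
    have h2 : σ (Y a) = Y a := h1
    rw [hT.he σ a] at h2
    have h3 : zc p Ω (Multiplicative.ofAdd ((Multiplicative.toAdd (e σ)) a)) = 0 := by
      simpa using h2
    exact twl_zc_ne p Ω _ ha h3
  have heA : ∀ σ : Ω ≃ₐ[LaurentSeries k] Ω, e σ ≠ 1 →
      Phi i (i (AlgEquiv.restrictNormalHom M σ)) ≤ (m : ℚ) * (p * l + 1) + 1 := by
    intro σ hσ
    have h1 : ∃ a, (Multiplicative.toAdd (e σ)) a ≠ 0 := by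
      by_contra hcon
      push Not at hcon
      exact hσ (funext hcon)
    obtain ⟨a, ha⟩ := h1
    exact hA1 a _ (hmY σ a ha)
  have hY'σ : ∀ (σ : Ω ≃ₐ[LaurentSeries k] Ω), ρ σ = 1 → ∀ j, σ (Y' j) = Y' j +
      zc p Ω (Multiplicative.ofAdd ((Multiplicative.toAdd (e' σ)) j)) := by
    intro σ hσ j
    rw [hT.he' σ j]
    congr 1
    rw [hσ]
    simp [twl_zc_one]
  have hkey : ∀ σ : Ω ≃ₐ[LaurentSeries k] Ω, ρ' σ ≠ 1 →
      Phi i (i (AlgEquiv.restrictNormalHom M σ)) ≤
        (m : ℚ) * (p * l + 1) + (m : ℚ) / (p : ℚ) ^ D.s + 1 := by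
    intro σ hσ
    by_cases h1 : ρ σ = 1
    swap
    · have := hA4 σ h1
      linarith
    by_cases h2 : e σ = 1
    swap
    · have := heA σ h2
      linarith
    rw [hT.hρ σ, h1, h2, map_one, one_mul, one_mul] at hσ
    have h3 : ∃ j, (Multiplicative.toAdd (e' σ)) j ≠ 0 := by
      by_contra hcon
      push Not at hcon
      apply hσ
      have : e' σ = 1 := funext hcon
      rw [this, map_one]
    obtain ⟨j, hj⟩ := h3
    have h4 : σ (Y' j) ≠ Y' j := by
      rw [hY'σ σ h1 j]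
      intro h
      apply twl_zc_ne p Ω (Multiplicative.ofAdd ((Multiplicative.toAdd (e' σ)) j)) hj
      simpa using h
    have hXfix : σ X = X := by
      rw [hB.aX σ, h1, map_one, toAdd_one, twl_tz_zero, add_zero]
    have hzfix : ∀ r, σ (z r) = z r := by
      intro r
      rw [hB.az σ r, h1, map_one, twl_zc_one, add_zero]
    by_cases hjJ : j ∈ D.J0
    · by_cases hw : D.w j = 0
      · exfalso
        apply h4
        apply twl_fp p (LaurentSeries k) Ω σ
        rw [hT.hY0 j hjJ, hw, zero_mul, twl_tz_zero, twl_tz_zero, zero_mul, zero_add]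
      · rw [← (hA3 j hjJ hw).2]
        apply twl_mono hPMO
        apply le_lev
        constructor
        · apply Subtype.ext
          rw [hdef]
          exact hXfix
        · intro h
          apply h4
          have h5 := congrArg (fun x : M => (x : Ω)) h
          simp only at h5
          rw [hdef] at h5
          exact h5
    · -- some YY is moved
      have h5 : ∃ a r, σ (YY a r) ≠ YY a r := by
        by_contra hcon
        push Not at hcon
        apply h4
        let f : I × R → Ω := fun q => YY q.1 q.2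
        let cc : I × R → ℕ := fun q => (D.θ j q.1 q.2).val
        have h6 := twl_frob p Ω Finset.univ cc f
        have h7 : (Y' j - ∑ q : I × R, (cc q : Ω) * f q) ^ p -
            (Y' j - ∑ q : I × R, (cc q : Ω) * f q) = 0 := by
          rw [sub_pow_char]
          have h8 : Y' j ^ p - Y' j = ∑ q : I × R, (cc q : Ω) * (f q ^ p - f q) := by
            rw [hT.hY1 j hjJ, Fintype.sum_prod_type]
            refine Finset.sum_congr rfl fun a _ => Finset.sum_congr rfl fun r _ => ?_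
            show _ = ((D.θ j a r).val : Ω) * (YY a r ^ p - YY a r)
            rw [hYY a r, ← mul_assoc]
            congr 1
            have h9 : (((D.θ j a r).val : ℕ) : Ω) = tz k Ω 0 (((D.θ j a r).val : ℕ) : k) := by
              unfold tz
              have h10 : (HahnSeries.single (0 : ℤ) (((D.θ j a r).val : ℕ) : k)) =
                  (((D.θ j a r).val : ℕ) : LaurentSeries k) := by
                have := map_natCast (HahnSeries.C : k →+* LaurentSeries k) (D.θ j a r).val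
                exact this
              rw [h10, map_natCast]
            rw [h9, twl_tz_mul, zero_add, mul_comm (D.b a)]
          linear_combination h8 - h6
        have h11 := twl_fp p (LaurentSeries k) Ω σ _ h7
        rw [map_sub, map_sum] at h11
        have h12 : ∑ q : I × R, σ ((cc q : Ω) * f q) = ∑ q : I × R, (cc q : Ω) * f q := by
          refine Finset.sum_congr rfl fun q _ => ?_
          rw [map_mul, map_natCast, hcon q.1 q.2]
        rw [h12] at h11
        exact sub_left_injective h11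
      obtain ⟨a, r, har⟩ := h5
      have h6 := hA2 a r (AlgEquiv.restrictNormalHom M σ) (by
        apply Subtype.ext
        rw [hdef]
        exact hzfix r) (by
        intro h
        apply har
        have h5 := congrArg (fun x : M => (x : Ω)) h
        simp only at h5
        rw [hdef] at h5
        exact h5)
      linarith
  obtain ⟨j, hj, hwj⟩ := D.hw
  obtain ⟨hne, hlev⟩ := hA3 j hj hwj
  rw [← hlev]
  congr 1
  apply le_antisymm
  · apply lev_le
    rintro τ ⟨σ, rfl, hσ⟩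
    by_contra hcon
    push Not at hcon
    have h1 := (hPMO _ i _ _).1 hcon
    have h2 := hkey σ hσ
    rw [hlev] at h1
    linarith
  · obtain ⟨g, hg, hgL⟩ := lev_mem i {g | g • (⟨X, hXM⟩ : M) = ⟨X, hXM⟩ ∧
        g • (⟨Y' j, hY'M j⟩ : M) ≠ ⟨Y' j, hY'M j⟩} hne
    obtain ⟨σ, rfl⟩ := hsurj g
    rw [← hgL] at hlev ⊢
    apply le_lev
    refine ⟨σ, rfl, ?_⟩
    have h1 : ρ σ = 1 := by
      by_contra h
      have := hA4 σ h
      linarith
    have h2 : e σ = 1 := by
      by_contra h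
      have := heA σ h
      linarith
    rw [hT.hρ σ, h1, h2, map_one, one_mul, one_mul]
    intro h3
    have h4 : e' σ = 1 := D.γinj (by rw [h3, map_one])
    apply hg.2
    apply Subtype.ext
    rw [hdef]
    show σ (Y' j) = Y' j
    rw [hY'σ σ h1 j, h4]
    have h5 : Multiplicative.ofAdd ((Multiplicative.toAdd (1 : Multiplicative (J → ZMod p))) j) =
        (1 : Multiplicative (ZMod p)) := rfl
    rw [h5, twl_zc_one, add_zero]

end Pool.Agent.Helper22.NP
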